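import Pool.Agent.V11251.ACFO.Hyper

set_option autoImplicit false
set_option linter.unusedVariables false
set_option linter.unusedSectionVars false

open FirstOrder

universe u

namespace Pool.Agent.Results.MP_224b2b_lc.RandomHypergraphs

open Pool.Agent.V11251.ACFO

/-- `(V, R)` is a random `(n+1)`-hypergraph: `R` is symmetric, holds only on tuples of distinct
elements, and for all finite disjoint families `𝒜`, `ℬ` of `n`-subsets of `V` there is a vertex `v`
outside `⋃ (𝒜 ∪ ℬ)` with `R (v, a)` for `a ∈ 𝒜` and not `R (v, b)` for `b ∈ ℬ` (`a`, `b` are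
enumerated injectively in an arbitrary way). -/
structure IsRandomHypergraph (n : ℕ) {V : Type u} (R : (Fin (n + 1) → V) → Prop) : Prop where
  symm : ∀ (σ : Equiv.Perm (Fin (n + 1))) (w : Fin (n + 1) → V), R w → R (w ∘ σ)
  inj : ∀ w, R w → Function.Injective w
  ext : ∀ 𝒜 ℬ : Finset (Finset V), (∀ a ∈ 𝒜, a.card = n) → (∀ b ∈ ℬ, b.card = n) →
    Disjoint 𝒜 ℬ → ∃ v : V, (∀ a ∈ 𝒜, v ∉ a) ∧ (∀ b ∈ ℬ, v ∉ b) ∧
      (∀ a ∈ 𝒜, ∀ e : Fin n → V, Function.Injective e → Set.range e = (a : Set V) →
        R (Fin.cons v e)) ∧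
      (∀ b ∈ ℬ, ∀ e : Fin n → V, Function.Injective e → Set.range e = (b : Set V) →
        ¬ R (Fin.cons v e))

/-- The `L_c`-structure `M` defines (with parameters) a random `(n+1)`-hypergraph on a definable
subset `X` of some `M^m`. -/
def DefinesRandomHypergraph (n : ℕ) (M : Type u) [Lc.Structure M] : Prop :=
  ∃ (m : ℕ) (X : Set (Fin m → M)) (R : Set (Fin (n + 1) × Fin m → M)),
    (Set.univ : Set M).Definable Lc X ∧ (Set.univ : Set M).Definable Lc R ∧
    (∀ w ∈ R, ∀ i, (fun l => w (i, l)) ∈ X) ∧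
    IsRandomHypergraph n (fun w : Fin (n + 1) → X => (fun q => (w q.1 : Fin m → M) q.2) ∈ R)

/-! ### definability -/

section defin

variable {F : Type u} [Field F] (D : Data Fˣ) {α : Type}

def ltC : Lc.Relations 2 := MRel.lt
def addC : Lc.Functions 2 := CFun.add
def mulC : Lc.Functions 2 := CFun.mul

/-- the interpretation of `<` on `F` -/
def LT' (x y : F) : Prop := ∃ a b : Fˣ, (a : F) = x ∧ (b : F) = y ∧ D.lt a b

/-- functions given by terms with parameters -/
def TermFun (g : (α → F) → F) : Prop :=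
  ∃ t : Lc.Term ((Set.univ : Set F) ⊕ α), ∀ w : α → F,
    @Language.Term.realize Lc F (cStr F D) _ (Sum.elim (fun a : (Set.univ : Set F) => (a : F)) w) t = g w

variable {D}

theorem TermFun.var (i : α) : TermFun D (fun w : α → F => w i) :=
  ⟨Language.Term.var (Sum.inr i), fun w => rfl⟩

theorem TermFun.const (c : F) : TermFun D (fun _ : α → F => c) :=
  ⟨Language.Term.var (Sum.inl ⟨c, trivial⟩), fun w => rfl⟩

theorem TermFun.add {g h : (α → F) → F} (hg : TermFun D g) (hh : TermFun D h) :
    TermFun D (fun w => g w + h w) := by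
  letI := cStr F D
  obtain ⟨s, hs⟩ := hg
  obtain ⟨t, ht⟩ := hh
  refine ⟨addC.apply₂ s t, fun w => ?_⟩
  rw [Language.Term.realize_functions_apply₂, hs w, ht w]
  rfl

theorem TermFun.mul {g h : (α → F) → F} (hg : TermFun D g) (hh : TermFun D h) :
    TermFun D (fun w => g w * h w) := by
  letI := cStr F D
  obtain ⟨s, hs⟩ := hg
  obtain ⟨t, ht⟩ := hh
  refine ⟨mulC.apply₂ s t, fun w => ?_⟩
  rw [Language.Term.realize_functions_apply₂, hs w, ht w]
  rfl

theorem TermFun.pow {g : (α → F) → F} (hg : TermFun D g) (k : ℕ) :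
    TermFun D (fun w => g w ^ k) := by
  induction k with
  | zero => simpa using TermFun.const (D := D) (α := α) 1
  | succ k ih => simpa only [pow_succ] using ih.mul hg

theorem TermFun.prod {ι : Type*} (s : Finset ι) {g : ι → (α → F) → F}
    (hg : ∀ i ∈ s, TermFun D (g i)) : TermFun D (fun w => ∏ i ∈ s, g i w) := by
  classical
  induction s using Finset.induction_on with
  | empty => simpa using TermFun.const (D := D) (α := α) 1
  | insert i s hi ih =>
    simp only [Finset.prod_insert hi]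
    exact (hg i (Finset.mem_insert_self i s)).mul
      (ih fun j hj => hg j (Finset.mem_insert_of_mem hj))

theorem definable_lt {g h : (α → F) → F} (hg : TermFun D g) (hh : TermFun D h) :
    @Set.Definable F Set.univ Lc (cStr F D) α {w | LT' D (g w) (h w)} := by
  letI := cStr F D
  obtain ⟨s, hs⟩ := hg
  obtain ⟨t, ht⟩ := hh
  rw [Set.definable_iff_exists_formula_sum]
  refine ⟨ltC.formula₂ s t, ?_⟩
  ext w
  rw [Set.mem_setOf_eq, Set.mem_setOf_eq, Language.Formula.realize_rel₂, hs w, ht w]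
  rfl

theorem definable_eq {g h : (α → F) → F} (hg : TermFun D g) (hh : TermFun D h) :
    @Set.Definable F Set.univ Lc (cStr F D) α {w | g w = h w} := by
  letI := cStr F D
  obtain ⟨s, hs⟩ := hg
  obtain ⟨t, ht⟩ := hh
  rw [Set.definable_iff_exists_formula_sum]
  refine ⟨s.equal t, ?_⟩
  ext w
  rw [Set.mem_setOf_eq, Set.mem_setOf_eq, Language.Formula.realize_equal, hs w, ht w]

end defin

/-! ### the hypergraph -/

section graph

variable {F : Type u} [Field F] (D : Data Fˣ) (n : ℕ) (d₀ d₁ : Fˣ)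

/-- the value attached to a tuple of points and an index -/
noncomputable def fv (w : Fin (n + 1) → Fin 3 → F) (i : Fin (n + 1)) : F :=
  w i 2 + ∏ j ∈ Finset.univ.erase i, gf (w i) (w j)

/-- the relation -/
def Rel (w : Fin (n + 1) → Fin 3 → F) : Prop :=
  (∀ i, w i 0 ≠ 0) ∧ Function.Injective w ∧
    ∃ i, (∀ j, j ≠ i → LT' D (w j 0) (w i 0)) ∧ LT' D d₀ (fv n w i) ∧ LT' D (fv n w i) d₁

theorem rel_perm (σ : Equiv.Perm (Fin (n + 1))) (w : Fin (n + 1) → Fin 3 → F)
    (h : Rel D n d₀ d₁ w) : Rel D n d₀ d₁ (w ∘ σ) := by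
  obtain ⟨h0, h1, i, h2, h3, h4⟩ := h
  have hf : fv n (w ∘ σ) (σ.symm i) = fv n w i := by
    unfold fv
    simp only [Function.comp_apply, Equiv.apply_symm_apply]
    congr 1
    apply Finset.prod_bij (fun j _ => σ j)
    · intro j hj
      rw [Finset.mem_erase] at hj ⊢
      exact ⟨fun h => hj.1 (by rw [← h, Equiv.symm_apply_apply]), Finset.mem_univ _⟩
    · intro a _ b _ h
      exact σ.injective h
    · intro b hb
      rw [Finset.mem_erase] at hb
      exact ⟨σ.symm b, Finset.mem_erase.2 ⟨fun h => hb.1 (σ.symm.injective h), Finset.mem_univ _⟩,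
        by simp⟩
    · intro j _
      rfl
  refine ⟨fun j => h0 _, h1.comp σ.injective, σ.symm i, ?_, ?_, ?_⟩
  · intro j hj
    simp only [Function.comp_apply, Equiv.apply_symm_apply]
    exact h2 _ (fun h => hj (by rw [← h, Equiv.symm_apply_apply]))
  · rw [hf]; exact h3
  · rw [hf]; exact h4

theorem definable_X : @Set.Definable F Set.univ Lc (cStr F D) (Fin 3) {x : Fin 3 → F | x 0 ≠ 0} :=
  letI := cStr F D
  (definable_eq (D := D) (TermFun.var (0 : Fin 3)) (TermFun.const 0)).compl

theorem definable_Rel : @Set.Definable F Set.univ Lc (cStr F D) (Fin (n + 1) × Fin 3)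
    {w | Rel D n d₀ d₁ (fun i l => w (i, l))} := by
  letI := cStr F D
  have hv : ∀ q : Fin (n + 1) × Fin 3, TermFun D (fun w : Fin (n + 1) × Fin 3 → F => w q) :=
    fun q => TermFun.var q
  have hfv : ∀ i, TermFun D (fun w : Fin (n + 1) × Fin 3 → F => fv n (fun i l => w (i, l)) i) := by
    intro i
    unfold fv gf
    apply (hv _).add
    apply TermFun.prod
    intro j _
    exact ((((hv (i, 0)).add ((hv (j, 0)).mul (hv (i, 1)))).add
      ((hv (j, 1)).mul ((hv (i, 1)).pow 2))).add ((hv (j, 2)).mul ((hv (i, 1)).pow 3)))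
  have h1 : (Set.univ : Set F).Definable Lc
      {w : Fin (n + 1) × Fin 3 → F | ∀ i : Fin (n + 1), w (i, 0) ≠ 0} := by
    rw [Set.setOf_forall]
    apply Set.definable_iInter_of_finite
    intro i
    exact (definable_eq (D := D) (hv (i, 0)) (TermFun.const 0)).compl
  have h2 : (Set.univ : Set F).Definable Lc
      {w : Fin (n + 1) × Fin 3 → F | Function.Injective (fun i l => w (i, l))} := by
    have : {w : Fin (n + 1) × Fin 3 → F | Function.Injective (fun i l => w (i, l))} =
        ⋂ i : Fin (n + 1), ⋂ j : {j : Fin (n + 1) // j ≠ i}, ⋃ l : Fin 3,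
          {w : Fin (n + 1) × Fin 3 → F | w (i, l) = w (j.1, l)}ᶜ := by
      ext w
      simp only [Set.mem_setOf_eq, Set.mem_iInter, Set.mem_iUnion, Set.mem_compl_iff]
      constructor
      · intro h i j
        by_contra hcon
        push Not at hcon
        exact j.2 (h (funext hcon)).symm
      · intro h i j hij
        by_contra hne
        obtain ⟨l, hl⟩ := h i ⟨j, fun h => hne h.symm⟩
        exact hl (congrFun hij l)
    rw [this]
    apply Set.definable_iInter_of_finite
    intro i
    apply Set.definable_iInter_of_finite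
    intro j
    apply Set.definable_iUnion_of_finite
    intro l
    exact (definable_eq (D := D) (hv (i, l)) (hv (j.1, l))).compl
  have h3 : (Set.univ : Set F).Definable Lc
      {w : Fin (n + 1) × Fin 3 → F | ∃ i, (∀ j, j ≠ i → LT' D (w (j, 0)) (w (i, 0))) ∧
        LT' D d₀ (fv n (fun i l => w (i, l)) i) ∧ LT' D (fv n (fun i l => w (i, l)) i) d₁} := by
    rw [Set.setOf_exists]
    apply Set.definable_iUnion_of_finite
    intro i
    have e1 : {w : Fin (n + 1) × Fin 3 → F | (∀ j, j ≠ i → LT' D (w (j, 0)) (w (i, 0))) ∧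
        LT' D d₀ (fv n (fun i l => w (i, l)) i) ∧ LT' D (fv n (fun i l => w (i, l)) i) d₁} =
        (⋂ j : {j : Fin (n + 1) // j ≠ i},
          {w : Fin (n + 1) × Fin 3 → F | LT' D (w (j.1, 0)) (w (i, 0))}) ∩
        ({w | LT' D d₀ (fv n (fun i l => w (i, l)) i)} ∩
          {w | LT' D (fv n (fun i l => w (i, l)) i) d₁}) := by
      ext w
      simp only [Set.mem_setOf_eq, Set.mem_inter_iff, Set.mem_iInter, Subtype.forall]
    rw [e1]
    apply Set.Definable.inter
    · apply Set.definable_iInter_of_finite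
      intro j
      exact definable_lt (hv _) (hv _)
    · exact (definable_lt (TermFun.const _) (hfv i)).inter
        (definable_lt (hfv i) (TermFun.const _))
  have e : {w : Fin (n + 1) × Fin 3 → F | Rel D n d₀ d₁ (fun i l => w (i, l))} =
      {w : Fin (n + 1) × Fin 3 → F | ∀ i : Fin (n + 1), w (i, 0) ≠ 0} ∩
      ({w : Fin (n + 1) × Fin 3 → F | Function.Injective (fun i l => w (i, l))} ∩
      {w : Fin (n + 1) × Fin 3 → F | ∃ i, (∀ j, j ≠ i → LT' D (w (j, 0)) (w (i, 0))) ∧
        LT' D d₀ (fv n (fun i l => w (i, l)) i) ∧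
          LT' D (fv n (fun i l => w (i, l)) i) d₁}) := by
    ext w
    rfl
  rw [e]
  exact h1.inter (h2.inter h3)

end graph

theorem prod_cons {F : Type u} [Field F] {n : ℕ} (v : Fin 3 → F) (e : Fin n → Fin 3 → F)
    (he : Function.Injective e) (a : Finset (Fin 3 → F)) (hr : Set.range e = (a : Set (Fin 3 → F))) :
    fv n (Fin.cons v e : Fin (n + 1) → Fin 3 → F) 0 = v 2 + ∏ y ∈ a, gf v y := by
  classical
  unfold fv
  simp only [Fin.cons_zero]
  congr 1
  have h1 : a = Finset.univ.image e := by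
    apply Finset.coe_injective
    rw [Finset.coe_image, Finset.coe_univ, Set.image_univ, hr]
  rw [h1, Finset.prod_image (fun x _ y _ h => he h)]
  symm
  apply Finset.prod_bij (fun (j : Fin n) _ => Fin.succ j)
  · intro j _
    exact Finset.mem_erase.2 ⟨Fin.succ_ne_zero j, Finset.mem_univ _⟩
  · intro i _ j _ h
    exact Fin.succ_injective n h
  · intro b hb
    obtain ⟨j, hj⟩ := Fin.exists_succ_eq.2 (Finset.ne_of_mem_erase hb)
    exact ⟨j, Finset.mem_univ _, hj⟩
  · intro j _
    simp

/-- For every model `F` of `ACFO` and every `n > 0`, a random `(n+1)`-hypergraph is definable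
in `F`. -/
theorem result (F : Type u) [Field F] (D : Data Fˣ) (h : IsACFO F D) (n : ℕ) (hn : 0 < n) :
    @DefinesRandomHypergraph n F (cStr F D) := by
  classical
  letI := cStr F D
  obtain ⟨⟨p, hp, hchar, hac, hmod⟩, hgen⟩ := h
  haveI := hac
  haveI : Infinite F := IsAlgClosed.instInfinite
  have hD : DLO D.lt := dlo_of_model D hp hmod
  obtain ⟨d₁, h01⟩ := hD.nomax 1
  obtain ⟨d₂, h12⟩ := hD.nomax d₁
  refine ⟨3, {x | x 0 ≠ 0}, {w | Rel D n 1 d₁ (fun i l => w (i, l))}, definable_X D,
    definable_Rel D n 1 d₁, fun w hw i => hw.1 i, ?_, ?_, ?_⟩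
  · intro σ w hw
    exact rel_perm D n 1 d₁ σ (fun i => (w i : Fin 3 → F)) hw
  · intro w hw i j hij
    exact hw.2.1 (by
      funext l
      show (w i : Fin 3 → F) l = (w j : Fin 3 → F) l
      rw [hij])
  · intro 𝒜 ℬ hA hB hAB
    let emb : {x : Fin 3 → F | x 0 ≠ 0} ↪ (Fin 3 → F) := ⟨Subtype.val, Subtype.val_injective⟩
    let femb : Finset {x : Fin 3 → F | x 0 ≠ 0} ↪ Finset (Fin 3 → F) :=
      (Finset.mapEmbedding emb).toEmbedding
    set U : Finset {x : Fin 3 → F | x 0 ≠ 0} := (𝒜 ∪ ℬ).biUnion id with hU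
    set S : Finset Fˣ := U.image (fun x => Units.mk0 (x.1 0) x.2) with hS
    obtain ⟨v, ⟨r, hr, hrS⟩, hvA, hvB⟩ := extension D hgen hD n (𝒜.map femb)
      (ℬ.map femb)
      (by
        intro a ha
        obtain ⟨a', ha', rfl⟩ := Finset.mem_map.1 ha
        show (a'.map emb).card = n
        rw [Finset.card_map]
        exact hA a' ha')
      (by
        intro a ha
        obtain ⟨a', ha', rfl⟩ := Finset.mem_map.1 ha
        show (a'.map emb).card = n
        rw [Finset.card_map]
        exact hB a' ha')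
      ((Finset.disjoint_map _).2 hAB) 1 d₁ d₂ h01 h12 S
    have hv0 : v 0 ≠ 0 := by rw [← hr]; exact r.ne_zero
    have hbig : ∀ x : {x : Fin 3 → F | x 0 ≠ 0}, x ∈ U → LT' D (x.1 0) (v 0) := by
      intro x hx
      exact ⟨Units.mk0 (x.1 0) x.2, r, rfl, hr,
        hrS _ (Finset.mem_image.2 ⟨x, hx, rfl⟩)⟩
    have hirr : ∀ x y : F, LT' D x y → LT' D y x → False := by
      rintro x y ⟨a, b, rfl, rfl, hab⟩ ⟨c, d, hc, hd, hcd⟩
      have e1 : c = b := Units.ext hc
      have e2 : d = a := Units.ext hd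
      subst e1 e2
      exact hD.irr _ (hD.trans _ _ _ hab hcd)
    have hnotU : ∀ x : {x : Fin 3 → F | x 0 ≠ 0}, x ∈ U → x.1 ≠ v := by
      intro x hx hxv
      have := hbig x hx
      rw [hxv] at this
      exact hirr _ _ this this
    refine ⟨⟨v, hv0⟩, ?_, ?_, ?_, ?_⟩
    · intro a ha hmem
      exact hnotU ⟨v, hv0⟩
        (Finset.mem_biUnion.2 ⟨a, Finset.mem_union_left _ ha, hmem⟩) rfl
    · intro a ha hmem
      exact hnotU ⟨v, hv0⟩
        (Finset.mem_biUnion.2 ⟨a, Finset.mem_union_right _ ha, hmem⟩) rfl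
    · intro a ha e he hrange
      have hmemU : ∀ j, e j ∈ U := by
        intro j
        refine Finset.mem_biUnion.2 ⟨a, Finset.mem_union_left _ ha, ?_⟩
        have : e j ∈ Set.range e := ⟨j, rfl⟩
        rw [hrange] at this
        exact this
      obtain ⟨x, hx, hx1, hx2⟩ := hvA (a.map emb)
        (Finset.mem_map.2 ⟨a, ha, rfl⟩)
      have hcons : (fun (i : Fin (n + 1)) (l : Fin 3) =>
          ((Fin.cons ⟨v, hv0⟩ e : Fin (n + 1) → {x : Fin 3 → F | x 0 ≠ 0}) i : Fin 3 → F) l) =
          (Fin.cons v (fun j => (e j : Fin 3 → F)) : Fin (n + 1) → Fin 3 → F) := by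
        funext i
        refine Fin.cases ?_ (fun j => ?_) i
        · rfl
        · rfl
      have hprod := prod_cons v (fun j => (e j : Fin 3 → F))
        (fun i j hij => he (Subtype.ext hij)) (a.map emb) (by
          ext y
          simp only [Set.mem_range, Finset.coe_map, Set.mem_image]
          rw [← hrange]
          constructor
          · rintro ⟨j, hj⟩
            exact ⟨e j, ⟨j, rfl⟩, hj⟩
          · rintro ⟨z, ⟨j, rfl⟩, hz⟩
            exact ⟨j, hz⟩)
      show Rel D n 1 d₁ (fun (i : Fin (n + 1)) (l : Fin 3) =>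
          ((Fin.cons ⟨v, hv0⟩ e : Fin (n + 1) → {x : Fin 3 → F | x 0 ≠ 0}) i : Fin 3 → F) l)
      rw [hcons]
      refine ⟨?_, ?_, 0, ?_, ?_, ?_⟩
      · intro i
        refine Fin.cases ?_ (fun j => ?_) i
        · exact hv0
        · exact (e j).2
      · rw [Fin.cons_injective_iff]
        refine ⟨?_, fun i j hij => he (Subtype.ext hij)⟩
        rintro ⟨j, hj⟩
        exact hnotU (e j) (hmemU j) hj
      · intro j hj
        obtain ⟨i, rfl⟩ := Fin.exists_succ_eq.2 hj
        rw [Fin.cons_succ, Fin.cons_zero]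
        exact hbig _ (hmemU i)
      · rw [hprod, ← hx]
        exact ⟨1, x, rfl, rfl, hx1⟩
      · rw [hprod, ← hx]
        exact ⟨x, d₁, rfl, rfl, hx2⟩
    · intro b hb e he hrange hRel
      have hmemU : ∀ j, e j ∈ U := by
        intro j
        refine Finset.mem_biUnion.2 ⟨b, Finset.mem_union_right _ hb, ?_⟩
        have : e j ∈ Set.range e := ⟨j, rfl⟩
        rw [hrange] at this
        exact this
      obtain ⟨x, hx, hx1, hx2⟩ := hvB (b.map emb)
        (Finset.mem_map.2 ⟨b, hb, rfl⟩)
      have hcons : (fun (i : Fin (n + 1)) (l : Fin 3) =>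
          ((Fin.cons ⟨v, hv0⟩ e : Fin (n + 1) → {x : Fin 3 → F | x 0 ≠ 0}) i : Fin 3 → F) l) =
          (Fin.cons v (fun j => (e j : Fin 3 → F)) : Fin (n + 1) → Fin 3 → F) := by
        funext i
        refine Fin.cases ?_ (fun j => ?_) i
        · rfl
        · rfl
      have hprod := prod_cons v (fun j => (e j : Fin 3 → F))
        (fun i j hij => he (Subtype.ext hij)) (b.map emb) (by
          ext y
          simp only [Set.mem_range, Finset.coe_map, Set.mem_image]
          rw [← hrange]
          constructor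
          · rintro ⟨j, hj⟩
            exact ⟨e j, ⟨j, rfl⟩, hj⟩
          · rintro ⟨z, ⟨j, rfl⟩, hz⟩
            exact ⟨j, hz⟩)
      have hRel' : Rel D n 1 d₁ (Fin.cons v (fun j => (e j : Fin 3 → F)) :
          Fin (n + 1) → Fin 3 → F) := by
        rw [← hcons]
        exact hRel
      obtain ⟨_, _, i, hi1, hi2, hi3⟩ := hRel'
      by_cases hi : i = 0
      · subst hi
        rw [hprod, ← hx] at hi3
        obtain ⟨a', b', ha', hb', hlt⟩ := hi3
        have e1 : a' = x := Units.ext ha'
        have e2 : b' = d₁ := Units.ext hb'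
        subst e1 e2
        exact hD.irr _ (hD.trans _ _ _ hlt hx1)
      · have h1 := hi1 0 (fun h => hi h.symm)
        obtain ⟨j, rfl⟩ := Fin.exists_succ_eq.2 hi
        rw [Fin.cons_succ, Fin.cons_zero] at h1
        exact hirr _ _ h1 (hbig _ (hmemU j))

end Pool.Agent.Results.MP_224b2b_lc.RandomHypergraphs
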